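import Mathlib

/-!
# GH, block B2: hyperplanes over the integers with prescribed dependent sets

The vectors are chosen one after the other (first those outside of `ι V`, then `l (ι b)` in `l b` plus the span of the `l a`,
`a ∈ A`); each new vector avoids finitely many proper subspaces (`avoid61`: a curve with exponents `e i`).
-/

set_option autoImplicit false

namespace Pool.Agent.GH

open Finset

/-- A curve through finitely many vectors avoids finitely many subspaces. -/
private theorem avoid61 {M : Type*} [AddCommGroup M] [Module ℚ M] {α : Type*} (I : Finset α) (e : α → ℕ)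
    (he : Set.InjOn e (I : Set α)) (u : α → M) {β : Type*} (B : Finset β) (U : β → Submodule ℚ M)
    (h : ∀ t ∈ B, ∃ i ∈ I, u i ∉ U t) : ∃ x : ℕ, ∀ t ∈ B, ∑ i ∈ I, (x : ℚ) ^ e i • u i ∉ U t := by
  classical
  have hfin : ∀ t ∈ B, {x : ℕ | ∑ i ∈ I, (x : ℚ) ^ e i • u i ∈ U t}.Finite := by
    intro t ht
    obtain ⟨i₀, hi₀, hu⟩ := h t ht
    obtain ⟨φ, hφ, hU⟩ := Submodule.exists_dual_map_eq_bot_of_notMem hu inferInstance
    have hU' : ∀ y ∈ U t, φ y = 0 := by
      intro y hy
      have : φ y ∈ (U t).map φ := Submodule.mem_map_of_mem hy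
      rw [hU] at this
      exact (Submodule.mem_bot ℚ).1 this
    set P : Polynomial ℚ := ∑ i ∈ I, Polynomial.C (φ (u i)) * Polynomial.X ^ e i with hP
    have hP0 : P ≠ 0 := by
      intro h0
      have h1 : P.coeff (e i₀) = φ (u i₀) := by
        rw [hP, Polynomial.finsetSum_coeff, Finset.sum_eq_single i₀]
        · rw [Polynomial.coeff_C_mul, Polynomial.coeff_X_pow, if_pos rfl, mul_one]
        · intro i hi hne
          rw [Polynomial.coeff_C_mul, Polynomial.coeff_X_pow, if_neg, mul_zero]
          intro h2
          exact hne (he (mem_coe.2 hi) (mem_coe.2 hi₀) h2.symm)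
        · intro h2
          exact absurd hi₀ h2
      rw [h0, Polynomial.coeff_zero] at h1
      exact hφ h1.symm
    refine Set.Finite.of_finite_image (f := fun x : ℕ => (x : ℚ)) ?_ (fun a _ b _ hab => Nat.cast_injective (R := ℚ) hab)
    refine (P.roots.toFinset.finite_toSet).subset ?_
    rintro _ ⟨x, hx, rfl⟩
    rw [mem_coe, Multiset.mem_toFinset, Polynomial.mem_roots hP0, Polynomial.IsRoot.def, hP, Polynomial.eval_finsetSum]
    have h2 := hU' _ hx
    rw [map_sum] at h2
    rw [← h2]
    refine Finset.sum_congr rfl fun i _ => ?_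
    simp only [Polynomial.eval_mul, Polynomial.eval_C, Polynomial.eval_pow, Polynomial.eval_X, map_smul, smul_eq_mul]
    ring
  have hall : (⋃ t ∈ B, {x : ℕ | ∑ i ∈ I, (x : ℚ) ^ e i • u i ∈ U t}).Finite := B.finite_toSet.biUnion hfin
  obtain ⟨x, hx⟩ := hall.exists_notMem
  refine ⟨x, fun t ht hmem => hx ?_⟩
  exact Set.mem_biUnion ht hmem

/-- the vectors over `ℚ` -/
private def qv {q m : ℕ} (l : Fin q → Fin m → ℤ) (i : Fin q) : Fin m → ℚ := fun j => (l i j : ℚ)

private theorem qv_update {q m : ℕ} (l : Fin q → Fin m → ℤ) {i : Fin q} (v : Fin m → ℤ) {T : Set (Fin q)} (hi : i ∉ T) :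
    Set.EqOn (qv (Function.update l i v)) (qv l) T := by
  intro j hj
  have hne : j ≠ i := fun h => hi (h ▸ hj)
  unfold qv
  rw [Function.update_of_ne hne]

private theorem step1 {q n : ℕ} (s : Finset (Fin q)) : ∃ l : Fin q → Fin (n + 1) → ℤ,
    ∀ T ⊆ s, T.card ≤ n + 1 → LinearIndepOn ℚ (qv l) (T : Set (Fin q)) := by
  classical
  induction s using Finset.induction_on with
  | empty =>
    refine ⟨fun _ _ => 0, fun T hT _ => ?_⟩
    rw [Finset.subset_empty.1 hT, Finset.coe_empty]
    exact linearIndepOn_empty _ _
  | insert i s hi ih =>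
    obtain ⟨l, hl⟩ := ih
    obtain ⟨x, hx⟩ := avoid61 (M := Fin (n + 1) → ℚ) (Finset.univ : Finset (Fin (n + 1))) (fun j => (j : ℕ))
      (fun a _ b _ h => Fin.ext h) (fun j => Pi.single j (1 : ℚ)) (s.powerset.filter fun T => T.card ≤ n)
      (fun T => Submodule.span ℚ (qv l '' (T : Set (Fin q)))) (by
        intro T hT
        rw [mem_filter, mem_powerset] at hT
        by_contra hcon
        push Not at hcon
        have h1 : Submodule.span ℚ (qv l '' (T : Set (Fin q))) = ⊤ := by
          rw [eq_top_iff, ← (Pi.basisFun ℚ (Fin (n + 1))).span_eq, Submodule.span_le]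
          rintro _ ⟨j, rfl⟩
          rw [Pi.basisFun_apply]
          exact hcon j (mem_univ j)
        have h2 : Module.finrank ℚ (Submodule.span ℚ (qv l '' (T : Set (Fin q)))) ≤ T.card := by
          rw [← Finset.coe_image]
          exact (finrank_span_finset_le_card _).trans card_image_le
        rw [h1, finrank_top, Module.finrank_fin_fun] at h2
        omega)
    refine ⟨Function.update l i fun j => (x : ℤ) ^ (j : ℕ), fun T hT hTc => ?_⟩
    by_cases hiT : i ∈ T
    · have h1 : (T : Set (Fin q)) = insert i ((T.erase i : Finset (Fin q)) : Set (Fin q)) := by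
        rw [← Finset.coe_insert, Finset.insert_erase hiT]
      have h2 : i ∉ ((T.erase i : Finset (Fin q)) : Set (Fin q)) := by
        rw [mem_coe]
        exact Finset.notMem_erase i T
      have h3 : T.erase i ⊆ s := by
        intro j hj
        rw [Finset.mem_erase] at hj
        exact (Finset.mem_insert.1 (hT hj.2)).resolve_left hj.1
      have h4 : (T.erase i).card ≤ n := by
        rw [Finset.card_erase_of_mem hiT]
        omega
      have heq := qv_update l (fun j : Fin (n + 1) => (x : ℤ) ^ (j : ℕ)) h2
      rw [h1, linearIndepOn_insert h2]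
      refine ⟨(hl _ h3 (by omega)).congr heq.symm, ?_⟩
      rw [Set.EqOn.image_eq heq]
      have h5 := hx (T.erase i) (mem_filter.2 ⟨mem_powerset.2 h3, h4⟩)
      have h6 : qv (Function.update l i fun j : Fin (n + 1) => (x : ℤ) ^ (j : ℕ)) i =
          ∑ j : Fin (n + 1), (x : ℚ) ^ (j : ℕ) • Pi.single j (1 : ℚ) := by
        funext j
        unfold qv
        rw [Function.update_self, Finset.sum_apply]
        simp [Pi.single_apply]
      rw [h6]
      exact h5
    · have h1 : i ∉ (T : Set (Fin q)) := fun h => hiT (mem_coe.1 h)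
      refine LinearIndepOn.congr (hl T (fun j hj => ?_) hTc) (qv_update l _ h1).symm
      exact (Finset.mem_insert.1 (hT hj)).resolve_left fun h => hiT (h ▸ hj)

private theorem step2 {q n : ℕ} (A V : Finset (Fin q)) (ι : Fin q → Fin q) (hA : A.card + 1 = n)
    (hι : Set.InjOn ι (V : Set (Fin q))) (hAV : Disjoint A V) (hAι : Disjoint A (V.image ι)) (hVι : Disjoint V (V.image ι))
    (W : Finset (Fin q)) (hW : W ⊆ V) : ∃ l : Fin q → Fin (n + 1) → ℤ,
    (∀ T ⊆ (V.image ι)ᶜ ∪ W.image ι, T.card ≤ n + 1 →
      LinearIndepOn ℚ (qv l) (T : Set (Fin q)) ∨ ∃ b ∈ W, T = insert (ι b) (insert b A)) ∧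
    ∀ b ∈ W, qv l (ι b) ∈ Submodule.span ℚ (qv l '' ((insert b A : Finset (Fin q)) : Set (Fin q))) := by
  classical
  have hbA : ∀ b ∈ V, b ∉ A := fun b hb h => Finset.disjoint_left.1 hAV h hb
  have hιbA : ∀ b ∈ V, ι b ∉ insert b A := by
    intro b hb h
    rw [Finset.mem_insert] at h
    rcases h with h | h
    · exact Finset.disjoint_left.1 hVι hb (h ▸ Finset.mem_image_of_mem ι hb)
    · exact Finset.disjoint_left.1 hAι h (Finset.mem_image_of_mem ι hb)
  have hcard : ∀ b ∈ V, (insert b A).card = n := fun b hb => by
    rw [Finset.card_insert_of_notMem (hbA b hb), hA]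
  have hcard' : ∀ b ∈ V, (insert (ι b) (insert b A)).card = n + 1 := fun b hb => by
    rw [Finset.card_insert_of_notMem (hιbA b hb), hcard b hb]
  induction W using Finset.induction_on with
  | empty =>
    obtain ⟨l, hl⟩ := step1 (n := n) ((V.image ι)ᶜ)
    refine ⟨l, fun T hT hTc => Or.inl (hl T ?_ hTc), fun b hb => absurd hb (Finset.notMem_empty b)⟩
    rwa [Finset.image_empty, Finset.union_empty] at hT
  | insert b W hb ih =>
    obtain ⟨l, hl, hl2⟩ := ih (fun x hx => hW (Finset.mem_insert_of_mem hx))
    have hbV : b ∈ V := hW (Finset.mem_insert_self b W)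
    set s : Finset (Fin q) := (V.image ι)ᶜ ∪ W.image ι with hs
    have hιs : ι b ∉ s := by
      intro h
      rw [hs, Finset.mem_union, Finset.mem_compl] at h
      rcases h with h | h
      · exact h (Finset.mem_image_of_mem ι hbV)
      · rw [Finset.mem_image] at h
        obtain ⟨c, hc, hcb⟩ := h
        have h1 := hι (mem_coe.2 (hW (Finset.mem_insert_of_mem hc))) (mem_coe.2 hbV) hcb
        exact hb (h1 ▸ hc)
    have hbs : b ∈ s := by
      rw [hs, Finset.mem_union, Finset.mem_compl]
      exact Or.inl fun h => Finset.disjoint_left.1 hVι hbV h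
    have hAs : A ⊆ s := by
      intro a ha
      rw [hs, Finset.mem_union, Finset.mem_compl]
      exact Or.inl fun h => Finset.disjoint_left.1 hAι ha h
    have hbAs : insert b A ⊆ s := Finset.insert_subset hbs hAs
    -- small sets are independent
    have hsmall : ∀ T ⊆ s, T.card ≤ n → LinearIndepOn ℚ (qv l) (T : Set (Fin q)) := by
      intro T hT hTc
      rcases hl T hT (by omega) with h | ⟨c, hc, h⟩
      · exact h
      · rw [h, hcard' c (hW (Finset.mem_insert_of_mem hc))] at hTc
        omega
    obtain ⟨x, hx⟩ := avoid61 (M := Fin (n + 1) → ℚ) (insert b A) (fun i => if i = b then 0 else (i : ℕ) + 1)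
      (by
        intro i _ j _ h
        simp only at h
        split_ifs at h with h1 h2 h2
        · rw [h1, h2]
        · exact Fin.ext (by omega))
      (qv l) ((s.powerset.filter fun T => T.card ≤ n).filter fun T => T ≠ insert b A)
      (fun T => Submodule.span ℚ (qv l '' (T : Set (Fin q)))) (by
        intro T hT
        rw [mem_filter, mem_filter, mem_powerset] at hT
        obtain ⟨⟨hTs, hTn⟩, hTb⟩ := hT
        by_contra hcon
        push Not at hcon
        have hle : Submodule.span ℚ (qv l '' ((insert b A : Finset (Fin q)) : Set (Fin q))) ≤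
            Submodule.span ℚ (qv l '' (T : Set (Fin q))) := by
          rw [Submodule.span_le]
          rintro _ ⟨i, hi, rfl⟩
          exact hcon i (mem_coe.1 hi)
        have hd1 : Module.finrank ℚ (Submodule.span ℚ (qv l '' ((insert b A : Finset (Fin q)) : Set (Fin q)))) = n := by
          rw [Set.image_eq_range]
          have := finrank_span_eq_card (hsmall _ hbAs (hcard b hbV).le)
          rw [this, ← hcard b hbV]
          simp only [Finset.coe_sort_coe, Fintype.card_coe]
        have hd2 : Module.finrank ℚ (Submodule.span ℚ (qv l '' (T : Set (Fin q)))) = T.card := by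
          rw [Set.image_eq_range]
          have := finrank_span_eq_card (hsmall _ hTs hTn)
          rw [this]
          simp only [Finset.coe_sort_coe, Fintype.card_coe]
        have heq : Submodule.span ℚ (qv l '' ((insert b A : Finset (Fin q)) : Set (Fin q))) =
            Submodule.span ℚ (qv l '' (T : Set (Fin q))) := by
          refine Submodule.eq_of_le_of_finrank_le hle ?_
          rw [hd1, hd2]
          exact hTn
        have hTcard : n = T.card := by rw [← hd1, ← hd2, heq]
        have hex : ∃ c ∈ T, c ∉ insert b A := by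
          by_contra h
          push Not at h
          have h1 : T ⊆ insert b A := h
          exact hTb (Finset.eq_of_subset_of_card_le h1 (by rw [hcard b hbV]; omega))
        obtain ⟨c, hcT, hcb⟩ := hex
        have hins : insert c (insert b A) ⊆ s := Finset.insert_subset (hTs hcT) hbAs
        rcases hl _ hins (by rw [Finset.card_insert_of_notMem hcb, hcard b hbV]) with h | ⟨b', hb', h⟩
        · rw [Finset.coe_insert c, linearIndepOn_insert (fun h => hcb (mem_coe.1 h))] at h
          apply h.2
          rw [heq]
          exact Submodule.subset_span ⟨c, mem_coe.2 hcT, rfl⟩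
        · have hb'V : b' ∈ V := hW (Finset.mem_insert_of_mem hb')
          have h1 : b ∈ insert (ι b') (insert b' A) := by
            rw [← h]
            exact Finset.mem_insert_of_mem (Finset.mem_insert_self b A)
          rw [Finset.mem_insert, Finset.mem_insert] at h1
          rcases h1 with h1 | h1 | h1
          · exact Finset.disjoint_left.1 hVι hbV (h1 ▸ Finset.mem_image_of_mem ι hb'V)
          · exact hb (h1 ▸ hb')
          · exact hbA b hbV h1)
    obtain ⟨v, hv⟩ : ∃ v : Fin (n + 1) → ℤ, v = ∑ i ∈ insert b A, (x : ℤ) ^ (if i = b then 0 else (i : ℕ) + 1) • l i :=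
      ⟨_, rfl⟩
    have hvq : (fun j => ((v j : ℤ) : ℚ)) = ∑ i ∈ insert b A, (x : ℚ) ^ (if i = b then 0 else (i : ℕ) + 1) • qv l i := by
      funext j
      rw [hv, Finset.sum_apply, Finset.sum_apply]
      push_cast
      refine Finset.sum_congr rfl fun i _ => ?_
      simp [qv]
    have hself : qv (Function.update l (ι b) v) (ι b) = fun j => ((v j : ℤ) : ℚ) := by
      unfold qv
      rw [Function.update_self]
    refine ⟨Function.update l (ι b) v, fun T hT hTc => ?_, fun c hc => ?_⟩
    · have hTs : ∀ j ∈ T, j ≠ ι b → j ∈ s := by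
        intro j hj hne
        have h1 := hT hj
        rw [Finset.mem_union, Finset.image_insert, Finset.mem_insert] at h1
        rw [hs, Finset.mem_union]
        rcases h1 with h1 | h1 | h1
        · exact Or.inl h1
        · exact absurd h1 hne
        · exact Or.inr h1
      by_cases hiT : ι b ∈ T
      · have h1 : (T : Set (Fin q)) = insert (ι b) ((T.erase (ι b) : Finset (Fin q)) : Set (Fin q)) := by
          rw [← Finset.coe_insert, Finset.insert_erase hiT]
        have h2 : ι b ∉ ((T.erase (ι b) : Finset (Fin q)) : Set (Fin q)) := by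
          rw [mem_coe]
          exact Finset.notMem_erase _ T
        have h3 : T.erase (ι b) ⊆ s := by
          intro j hj
          rw [Finset.mem_erase] at hj
          exact hTs j hj.2 hj.1
        have h4 : (T.erase (ι b)).card ≤ n := by
          rw [Finset.card_erase_of_mem hiT]
          omega
        by_cases h5 : T.erase (ι b) = insert b A
        · right
          refine ⟨b, Finset.mem_insert_self b W, ?_⟩
          rw [← h5, Finset.insert_erase hiT]
        · left
          have heq := qv_update l v h2
          rw [h1, linearIndepOn_insert h2]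
          refine ⟨(hsmall _ h3 h4).congr heq.symm, ?_⟩
          rw [Set.EqOn.image_eq heq, hself, hvq]
          exact hx (T.erase (ι b)) (mem_filter.2 ⟨mem_filter.2 ⟨mem_powerset.2 h3, h4⟩, h5⟩)
      · have h1 : ι b ∉ (T : Set (Fin q)) := fun h => hiT (mem_coe.1 h)
        have h2 : T ⊆ s := fun j hj => hTs j hj fun h => hiT (h ▸ hj)
        rcases hl T h2 hTc with h | ⟨c, hc, h⟩
        · exact Or.inl (h.congr (qv_update l v h1).symm)
        · exact Or.inr ⟨c, Finset.mem_insert_of_mem hc, h⟩
    · have hcV : c ∈ V := hW hc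
      have h1 : ι b ∉ ((insert c A : Finset (Fin q)) : Set (Fin q)) := by
        rw [mem_coe, Finset.mem_insert]
        rintro (h | h)
        · exact Finset.disjoint_left.1 hVι hcV (h ▸ Finset.mem_image_of_mem ι hbV)
        · exact Finset.disjoint_left.1 hAι h (Finset.mem_image_of_mem ι hbV)
      rw [Set.EqOn.image_eq (qv_update l v h1)]
      rw [Finset.mem_insert] at hc
      rcases hc with rfl | hc
      · rw [hself, hvq]
        refine Submodule.sum_mem _ fun i hi => Submodule.smul_mem _ _ (Submodule.subset_span ⟨i, mem_coe.2 hi, rfl⟩)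
      · have hne : ι c ≠ ι b := by
          intro h
          exact hb ((hι (mem_coe.2 hcV) (mem_coe.2 hbV) h) ▸ hc)
        have h2 : qv (Function.update l (ι b) v) (ι c) = qv l (ι c) := by
          unfold qv
          rw [Function.update_of_ne hne]
        rw [h2]
        exact hl2 c hc

/-- Hyperplanes over `ℤ` whose only dependent `(n + 1)`-sets are `A ∪ {b, ι b}`. -/
theorem exists_arr {q n : ℕ} (A V : Finset (Fin q)) (ι : Fin q → Fin q) (hA : A.card + 1 = n)
    (hι : Set.InjOn ι (V : Set (Fin q))) (hAV : Disjoint A V) (hAι : Disjoint A (V.image ι)) (hVι : Disjoint V (V.image ι)) :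
    ∃ l : Fin q → Fin (n + 1) → ℤ, ∀ f : Fin (n + 1) → Fin q, Function.Injective f →
      ((Matrix.of fun i j => l (f i) j).det = 0 ↔ ∃ b ∈ V, Finset.univ.image f = insert (ι b) (insert b A)) := by
  classical
  obtain ⟨l, hl, hl2⟩ := step2 A V ι hA hι hAV hAι hVι V subset_rfl
  refine ⟨l, fun f hf => ?_⟩
  have hdet : (Matrix.of fun i j => l (f i) j).det = 0 ↔ ¬ LinearIndependent ℚ (fun i => qv l (f i)) := by
    have h1 : ((Matrix.of fun i j => l (f i) j).map (Int.castRingHom ℚ)).det =
        (Int.castRingHom ℚ) (Matrix.of fun i j => l (f i) j).det := (RingHom.map_det _ _).symm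
    have h2 : (Matrix.of fun i j => l (f i) j).det = 0 ↔ ((Matrix.of fun i j => l (f i) j).map (Int.castRingHom ℚ)).det = 0 := by
      rw [h1]
      constructor
      · intro h
        rw [h, map_zero]
      · intro h
        exact (Int.cast_injective (α := ℚ)) (by simpa using h)
    rw [h2]
    have h3 := Matrix.linearIndependent_rows_iff_isUnit (A := (Matrix.of fun i j => l (f i) j).map (Int.castRingHom ℚ))
    rw [Matrix.isUnit_iff_isUnit_det, isUnit_iff_ne_zero] at h3
    have h4 : ((Matrix.of fun i j => l (f i) j).map (Int.castRingHom ℚ)).row = fun i => qv l (f i) := by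
      funext i j
      rfl
    rw [h4] at h3
    rw [h3, not_not]
  have hT : ((Finset.univ.image f : Finset (Fin q)) : Set (Fin q)) = Set.range f := by
    rw [Finset.coe_image, Finset.coe_univ, Set.image_univ]
  have hind : LinearIndepOn ℚ (qv l) (Set.range f) ↔ LinearIndependent ℚ (fun i => qv l (f i)) := by
    rw [LinearIndepOn]
    exact (linearIndependent_equiv (Equiv.ofInjective f hf)).symm
  rw [hdet, ← hind, ← hT]
  constructor
  · intro h
    rcases hl (Finset.univ.image f) (by
      intro j _
      rw [Finset.mem_union, Finset.mem_compl]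
      exact (em _).symm) (by
        rw [Finset.card_image_of_injective _ hf, Finset.card_univ, Fintype.card_fin]) with h1 | h1
    · exact absurd h1 h
    · exact h1
  · rintro ⟨b, hb, h⟩ hlin
    rw [h, Finset.coe_insert, linearIndepOn_insert] at hlin
    · exact hlin.2 (hl2 b hb)
    · intro h1
      rw [mem_coe, Finset.mem_insert] at h1
      rcases h1 with h1 | h1
      · exact Finset.disjoint_left.1 hVι hb (h1 ▸ Finset.mem_image_of_mem ι hb)
      · exact Finset.disjoint_left.1 hAι h1 (Finset.mem_image_of_mem ι hb)

end Pool.Agent.GH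

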