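import Mathlib

/-!
# GH, block B1: bad configurations are impossible near an arrangement with few dependent sets

`O` is a valuation ring of `K` with residue field of characteristic zero, `l` is congruent to `l0` modulo its maximal ideal. The points `x b s` are
scaled to primitive vectors over `O`. Modulo the maximal ideal they lie on at most `r n + 1 < q` hyperplanes (`count61`), so for every `b` some
`c j` (`j ∈ V.image ι`) has the largest valuation among the `c i`; but the first point lies on the hyperplane `ι b` modulo the maximal ideal, so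
`c (ι b)` has not. Contradiction for the `b` with `c (ι b)` of largest valuation.
-/

set_option autoImplicit false

namespace Pool.Agent.GH

open Finset

section count

variable {q n : ℕ}

/-- The number of hyperplanes through finitely many points. -/
private theorem count61 {r : ℕ} (hn : 2 ≤ n) (hr : 0 < r) (A V : Finset (Fin q)) (ι : Fin q → Fin q) (hA : A.card + 1 = n)
    (H : Fin r → Finset (Fin q))
    (hH : ∀ s, ∀ T ⊆ H s, T.card = n + 1 → ∃ b ∈ V, T = insert (ι b) (insert b A)) (h0 : A ⊆ H ⟨0, hr⟩) :
    (Finset.univ.biUnion H).card ≤ r * n + 1 := by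
  classical
  have hA0 : A.Nonempty := by
    rw [← Finset.card_pos]
    omega
  obtain ⟨a, ha⟩ := hA0
  have h1 : ∀ s, (H s).card ≤ n + 1 := by
    intro s
    by_contra hcon
    push Not at hcon
    obtain ⟨T, hT, hTc⟩ := Finset.exists_subset_card_eq (s := (H s).erase a) (n := n + 1) (by
      have := Finset.pred_card_le_card_erase (s := H s) (a := a)
      omega)
    obtain ⟨b, hb, h⟩ := hH s T (hT.trans (Finset.erase_subset _ _)) hTc
    have h2 : a ∈ T := by
      rw [h]
      exact Finset.mem_insert_of_mem (Finset.mem_insert_of_mem ha)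
    exact Finset.notMem_erase a _ (hT h2)
  have h2 : ∀ s, (H s \ A).card ≤ n := by
    intro s
    rcases Nat.lt_or_ge (H s).card (n + 1) with h3 | h3
    · exact (Finset.card_le_card Finset.sdiff_subset).trans (by omega)
    · obtain ⟨b, hb, h⟩ := hH s (H s) subset_rfl (le_antisymm (h1 s) h3)
      have h4 : H s \ A ⊆ {ι b, b} := by
        intro j hj
        rw [Finset.mem_sdiff, h, Finset.mem_insert, Finset.mem_insert] at hj
        rw [Finset.mem_insert, Finset.mem_singleton]
        tauto
      exact (Finset.card_le_card h4).trans (Finset.card_le_two.trans hn)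
  have h3 : Finset.univ.biUnion H ⊆ H ⟨0, hr⟩ ∪ (Finset.univ.erase (⟨0, hr⟩ : Fin r)).biUnion fun s => H s \ A := by
    intro j hj
    rw [Finset.mem_biUnion] at hj
    obtain ⟨s, -, hs⟩ := hj
    rw [Finset.mem_union, Finset.mem_biUnion]
    by_cases h4 : j ∈ H ⟨0, hr⟩
    · exact Or.inl h4
    · right
      refine ⟨s, ?_, ?_⟩
      · rw [Finset.mem_erase]
        refine ⟨fun h => h4 (h ▸ hs), Finset.mem_univ s⟩
      · rw [Finset.mem_sdiff]
        exact ⟨hs, fun h => h4 (h0 h)⟩
  have h4 : ((Finset.univ.erase (⟨0, hr⟩ : Fin r)).biUnion fun s => H s \ A).card ≤ (r - 1) * n := by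
    refine (Finset.card_biUnion_le_card_mul _ _ n fun s _ => h2 s).trans ?_
    rw [Finset.card_erase_of_mem (Finset.mem_univ _), Finset.card_univ, Fintype.card_fin]
  have h5 := Finset.card_le_card h3
  have h6 := Finset.card_union_le (H ⟨0, hr⟩) ((Finset.univ.erase (⟨0, hr⟩ : Fin r)).biUnion fun s => H s \ A)
  have h7 := h1 ⟨0, hr⟩
  have h8 : r * n = (r - 1) * n + n := by
    obtain ⟨m, rfl⟩ : ∃ m, r = m + 1 := ⟨r - 1, by omega⟩
    rw [Nat.add_sub_cancel]
    ring
  omega

end count

section prim

variable {K : Type*} [Field K] (O : ValuationSubring K)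

/-- Primitive representatives. -/
private theorem prim61 {m : ℕ} (x : Fin m → K) (hx : x ≠ 0) : ∃ (t : K) (y : Fin m → O), t ≠ 0 ∧
    (∀ j, ((y j : O) : K) = t * x j) ∧ ∃ j, y j = 1 := by
  obtain ⟨j₀, hj₀⟩ := Function.ne_iff.1 hx
  obtain ⟨j, -, hj⟩ := Finset.exists_max_image Finset.univ (fun j => O.valuation (x j)) ⟨j₀, Finset.mem_univ _⟩
  have hxj : x j ≠ 0 := by
    intro h
    have h1 := hj j₀ (Finset.mem_univ _)
    rw [h, map_zero] at h1
    exact hj₀ ((O.valuation.zero_iff).1 (le_zero_iff.1 h1))
  have hmem : ∀ i, (x j)⁻¹ * x i ∈ O := by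
    intro i
    rw [← O.valuation_le_one_iff, map_mul, map_inv₀]
    have h1 := hj i (Finset.mem_univ _)
    have h2 : O.valuation (x j) ≠ 0 := (Valuation.ne_zero_iff _).2 hxj
    rw [← inv_mul_cancel₀ h2]
    exact mul_le_mul' le_rfl h1
  refine ⟨(x j)⁻¹, fun i => ⟨(x j)⁻¹ * x i, hmem i⟩, inv_ne_zero hxj, fun i => rfl, j, ?_⟩
  exact Subtype.ext (inv_mul_cancel₀ hxj)

end prim

/-- (3): the bad configurations are impossible near `l0`. -/
theorem contra {n q r : ℕ} (hn : 2 ≤ n) (hr : 0 < r) (hq : r * n + 2 ≤ q) (A V : Finset (Fin q)) (ι : Fin q → Fin q)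
    (hA : A.card + 1 = n) (hV : V.Nonempty) (hAV : Disjoint A V)
    (hAι : Disjoint A (V.image ι)) (hVι : Disjoint V (V.image ι)) (l0 : Fin q → Fin (n + 1) → ℤ)
    (hl0 : ∀ f : Fin (n + 1) → Fin q, Function.Injective f →
      ((Matrix.of fun i j => l0 (f i) j).det = 0 ↔ ∃ b ∈ V, Finset.univ.image f = insert (ι b) (insert b A)))
    {K : Type*} [Field K] (O : ValuationSubring K) (hO : ∀ m : ℤ, m ≠ 0 → O.valuation (m : K) = 1)
    (l : Fin q → Fin (n + 1) → K) (hl : ∀ i j, O.valuation (l i j - (l0 i j : K)) < 1) (c : Fin q → K)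
    (hc : ∀ i ∈ V.image ι, c i ≠ 0) (x : Fin q → Fin r → Fin (n + 1) → K) (hx : ∀ b ∈ V, ∀ s, x b s ≠ 0)
    (hxc : ∀ b ∈ V, ∀ i ∈ V.image ι, ∏ s, ∑ j, l i j * x b s j = c i)
    (hx0 : ∀ b ∈ V, ∀ i, i ∉ V.image ι → ∃ s, ∑ j, l i j * x b s j = 0)
    (hxA : ∀ b ∈ V, ∀ i ∈ insert b A, ∑ j, l i j * x b ⟨0, hr⟩ j = 0) : False := by
  classical
  set κ := IsLocalRing.ResidueField O with hκ
  set res : O →+* κ := IsLocalRing.residue O with hres
  -- the integers in the residue field
  have hint : ∀ m : ℤ, m ≠ 0 → (m : κ) ≠ 0 := by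
    intro m hm h
    have h1 : res (m : O) = 0 := by rw [map_intCast]; exact h
    rw [hres, IsLocalRing.residue_eq_zero_iff, O.valuation_lt_one_iff] at h1
    have h2 : (((m : O) : O) : K) = (m : K) := by push_cast; rfl
    rw [h2, hO m hm] at h1
    exact lt_irrefl _ h1
  -- the forms over `O`
  have hlO : ∀ i j, l i j ∈ O := by
    intro i j
    have h1 : l i j - (l0 i j : K) ∈ O := (O.valuation_le_one_iff _).1 (hl i j).le
    have h2 : (l0 i j : K) ∈ O := intCast_mem O _
    have := O.add_mem _ _ h1 h2
    rwa [sub_add_cancel] at this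
  set l' : Fin q → Fin (n + 1) → O := fun i j => ⟨l i j, hlO i j⟩ with hl'
  have hres' : ∀ i j, res (l' i j) = (l0 i j : κ) := by
    intro i j
    have h1 : res (l' i j - (l0 i j : O)) = 0 := by
      rw [hres, IsLocalRing.residue_eq_zero_iff, O.valuation_lt_one_iff]
      have h2 : ((l' i j - (l0 i j : O) : O) : K) = l i j - (l0 i j : K) := by push_cast; rfl
      rw [h2]
      exact hl i j
    rw [map_sub, map_intCast, sub_eq_zero] at h1
    exact h1
  -- primitive representatives
  have hprim : ∀ b s, ∃ (t : K) (y : Fin (n + 1) → O), b ∈ V → t ≠ 0 ∧ (∀ j, ((y j : O) : K) = t * x b s j) ∧ ∃ j, y j = 1 := by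
    intro b s
    by_cases hb : b ∈ V
    · obtain ⟨t, y, h⟩ := prim61 O (x b s) (hx b hb s)
      exact ⟨t, y, fun _ => h⟩
    · exact ⟨0, 0, fun h => absurd h hb⟩
  choose t y hty using hprim
  have ht : ∀ b ∈ V, ∀ s, t b s ≠ 0 := fun b hb s => (hty b s hb).1
  have hyx : ∀ b ∈ V, ∀ s j, ((y b s j : O) : K) = t b s * x b s j := fun b hb s => (hty b s hb).2.1
  -- values of the forms
  set w : Fin q → Fin q → Fin r → O := fun b i s => ∑ j, l' i j * y b s j with hw
  have hwK : ∀ b ∈ V, ∀ i s, ((w b i s : O) : K) = t b s * ∑ j, l i j * x b s j := by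
    intro b hb i s
    rw [hw]
    simp only
    push_cast
    rw [Finset.mul_sum]
    refine Finset.sum_congr rfl fun j _ => ?_
    rw [hyx b hb s j]
    show l i j * (t b s * x b s j) = _
    ring
  have hwres : ∀ b i s, res (w b i s) = ∑ j, (l0 i j : κ) * res (y b s j) := by
    intro b i s
    rw [hw]
    simp only [map_sum, map_mul, hres']
  -- forms vanishing at a point of the residue field
  have hdep : ∀ b ∈ V, ∀ s, ∀ f : Fin (n + 1) → Fin q, Function.Injective f → (∀ i, res (w b (f i) s) = 0) →
      ∃ b' ∈ V, Finset.univ.image f = insert (ι b') (insert b' A) := by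
    intro b hb s f hf h
    rw [← hl0 f hf]
    by_contra hdet
    have h1 : ((Matrix.of fun i j => l0 (f i) j).map (Int.castRingHom κ)).det ≠ 0 := by
      have h2 : ((Matrix.of fun i j => l0 (f i) j).map (Int.castRingHom κ)).det =
        (Int.castRingHom κ) (Matrix.of fun i j => l0 (f i) j).det := (RingHom.map_det _ _).symm
      rw [h2]
      exact hint _ hdet
    have h2 : (fun j => res (y b s j)) = 0 := by
      refine Matrix.eq_zero_of_mulVec_eq_zero h1 ?_
      funext i
      have := h i
      rw [hwres] at this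
      exact this
    obtain ⟨j, hj⟩ := (hty b s hb).2.2
    have h3 := congrFun h2 j
    simp only [hj, map_one, Pi.zero_apply] at h3
    exact one_ne_zero h3
  -- the counting
  have hgood : ∀ b ∈ V, ∃ j ∈ V.image ι, ∀ s, res (w b j s) ≠ 0 := by
    intro b hb
    obtain ⟨H, hH⟩ : ∃ H : Fin r → Finset (Fin q), H = fun s => Finset.univ.filter fun i => res (w b i s) = 0 := ⟨_, rfl⟩
    have hmem : ∀ s i, i ∈ H s ↔ res (w b i s) = 0 := by
      intro s i
      rw [hH, Finset.mem_filter]
      exact ⟨fun h => h.2, fun h => ⟨Finset.mem_univ _, h⟩⟩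
    have hc1 := count61 hn hr A V ι hA H (by
      intro s T hT hTc
      obtain ⟨f, hf⟩ : ∃ f : Fin (n + 1) → Fin q, Function.Injective f ∧ Finset.univ.image f = T := by
        refine ⟨T.orderEmbOfFin hTc, (T.orderEmbOfFin hTc).injective, ?_⟩
        rw [← Finset.coe_inj, Finset.coe_image, Finset.coe_univ, Set.image_univ]
        exact Finset.range_orderEmbOfFin T hTc
      rw [← hf.2]
      refine hdep b hb s f hf.1 fun i => ?_
      rw [← hmem]
      apply hT
      rw [← hf.2]
      exact Finset.mem_image_of_mem f (Finset.mem_univ i)) (by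
      intro a ha
      rw [hmem]
      have h1 := hwK b hb a ⟨0, hr⟩
      rw [hxA b hb a (Finset.mem_insert_of_mem ha), mul_zero] at h1
      have h2 : w b a ⟨0, hr⟩ = 0 := Subtype.ext h1
      rw [h2, map_zero])
    obtain ⟨j, hj⟩ : ∃ j, j ∉ Finset.univ.biUnion H := by
      by_contra hcon
      push Not at hcon
      have h1 : Finset.univ.biUnion H = Finset.univ := Finset.eq_univ_iff_forall.2 hcon
      rw [h1, Finset.card_univ, Fintype.card_fin] at hc1
      omega
    have hj' : ∀ s, res (w b j s) ≠ 0 := by
      intro s h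
      exact hj (Finset.mem_biUnion.2 ⟨s, Finset.mem_univ s, (hmem s j).2 h⟩)
    refine ⟨j, ?_, hj'⟩
    by_contra hjV
    obtain ⟨s, hs⟩ := hx0 b hb j hjV
    apply hj' s
    have h1 := hwK b hb j s
    rw [hs, mul_zero] at h1
    have h2 : w b j s = 0 := Subtype.ext h1
    rw [h2, map_zero]
  -- the form `ι b` vanishes at the first point
  have hbad : ∀ b ∈ V, res (w b (ι b) ⟨0, hr⟩) = 0 := by
    intro b hb
    have hzero : ∀ i ∈ insert b A, res (w b i ⟨0, hr⟩) = 0 := by
      intro i hi
      have h1 := hwK b hb i ⟨0, hr⟩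
      rw [hxA b hb i hi, mul_zero] at h1
      have h2 : w b i ⟨0, hr⟩ = 0 := Subtype.ext h1
      rw [h2, map_zero]
    have hbA : b ∉ A := fun h => Finset.disjoint_left.1 hAV h hb
    have hιb : ι b ∈ V.image ι := Finset.mem_image_of_mem ι hb
    have hιA : ι b ∉ insert b A := by
      intro h
      rw [Finset.mem_insert] at h
      rcases h with h | h
      · exact Finset.disjoint_left.1 hVι hb (h ▸ hιb)
      · exact Finset.disjoint_left.1 hAι h hιb
    have hcard : (insert b A).card = n := by rw [Finset.card_insert_of_notMem hbA, hA]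
    -- an enumeration
    have hTc : (insert (ι b) (insert b A)).card = n + 1 := by rw [Finset.card_insert_of_notMem hιA, hcard]
    obtain ⟨f, hfi, hf⟩ : ∃ f : Fin (n + 1) → Fin q, Function.Injective f ∧
        Finset.univ.image f = insert (ι b) (insert b A) := by
      refine ⟨(insert (ι b) (insert b A)).orderEmbOfFin hTc, ((insert (ι b) (insert b A)).orderEmbOfFin hTc).injective, ?_⟩
      rw [← Finset.coe_inj, Finset.coe_image, Finset.coe_univ, Set.image_univ]
      exact Finset.range_orderEmbOfFin _ hTc
    have hdet : (Matrix.of fun i j => l0 (f i) j).det = 0 := (hl0 f hfi).2 ⟨b, hb, hf⟩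
    obtain ⟨v, hv0, hv⟩ := Matrix.exists_vecMul_eq_zero_iff.2 hdet
    -- the coefficient of `ι b`
    obtain ⟨i₀, -, hi₀⟩ : ∃ i₀ ∈ Finset.univ, f i₀ = ι b := by
      rw [← Finset.mem_image, hf]
      exact Finset.mem_insert_self _ _
    have hvi : v i₀ ≠ 0 := by
      intro hvi
      -- another hyperplane
      obtain ⟨j, hj⟩ : ∃ j, j ∉ insert (ι b) (insert b A) := by
        by_contra hcon
        push Not at hcon
        have h1 : insert (ι b) (insert b A) = Finset.univ := Finset.eq_univ_iff_forall.2 hcon
        rw [h1, Finset.card_univ, Fintype.card_fin] at hTc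
        have : n ≤ r * n := Nat.le_mul_of_pos_left n hr
        omega
      have hg : Function.Injective (Function.update f i₀ j) := by
        intro a a' haa
        by_cases h1 : a = i₀ <;> by_cases h2 : a' = i₀
        · rw [h1, h2]
        · rw [h1, Function.update_self, Function.update_of_ne h2] at haa
          exact absurd (by rw [haa, ← hf]; exact Finset.mem_image_of_mem f (Finset.mem_univ _)) hj
        · rw [h2, Function.update_self, Function.update_of_ne h1] at haa
          exact absurd (by rw [← haa, ← hf]; exact Finset.mem_image_of_mem f (Finset.mem_univ _)) hj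
        · rw [Function.update_of_ne h1, Function.update_of_ne h2] at haa
          exact hfi haa
      have hgim : Finset.univ.image (Function.update f i₀ j) = insert j (insert b A) := by
        ext a
        rw [Finset.mem_image, Finset.mem_insert]
        constructor
        · rintro ⟨i, -, rfl⟩
          by_cases h1 : i = i₀
          · rw [h1, Function.update_self]
            exact Or.inl rfl
          · rw [Function.update_of_ne h1]
            right
            have h2 : f i ∈ insert (ι b) (insert b A) := by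
              rw [← hf]
              exact Finset.mem_image_of_mem f (Finset.mem_univ _)
            rw [Finset.mem_insert] at h2
            rcases h2 with h2 | h2
            · exact absurd (hfi (h2.trans hi₀.symm)) h1
            · exact h2
        · rintro (h1 | h1)
          · exact ⟨i₀, Finset.mem_univ _, by rw [Function.update_self, h1]⟩
          · have h2 : a ∈ Finset.univ.image f := by
              rw [hf]
              exact Finset.mem_insert_of_mem h1
            obtain ⟨i, -, hi⟩ := Finset.mem_image.1 h2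
            refine ⟨i, Finset.mem_univ _, ?_⟩
            rw [Function.update_of_ne, hi]
            rintro rfl
            rw [hi₀] at hi
            exact hιA (hi ▸ h1)
      have hdet' : (Matrix.of fun i j' => l0 (Function.update f i₀ j i) j').det = 0 := by
        rw [← Matrix.exists_vecMul_eq_zero_iff]
        refine ⟨v, hv0, ?_⟩
        rw [← hv]
        funext j'
        show ∑ i, v i * l0 (Function.update f i₀ j i) j' = ∑ i, v i * l0 (f i) j'
        refine Finset.sum_congr rfl fun i _ => ?_
        by_cases h1 : i = i₀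
        · rw [h1, hvi, zero_mul, zero_mul]
        · rw [Function.update_of_ne h1]
      obtain ⟨b', hb', h⟩ := (hl0 _ hg).1 hdet'
      rw [hgim] at h
      have hb'ι : ι b' ∈ V.image ι := Finset.mem_image_of_mem ι hb'
      have h1 : ι b' ∈ insert j (insert b A) := by
        rw [h]
        exact Finset.mem_insert_self _ _
      have h2 : ι b' = j := by
        rw [Finset.mem_insert, Finset.mem_insert] at h1
        rcases h1 with h1 | h1 | h1
        · exact h1
        · exact absurd (h1 ▸ hb'ι) (Finset.disjoint_left.1 hVι hb)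
        · exact absurd hb'ι (Finset.disjoint_left.1 hAι h1)
      have h3 : b ∈ insert (ι b') (insert b' A) := by
        rw [← h]
        exact Finset.mem_insert_of_mem (Finset.mem_insert_self _ _)
      rw [Finset.mem_insert, Finset.mem_insert] at h3
      rcases h3 with h3 | h3 | h3
      · exact Finset.disjoint_left.1 hVι hb (h3 ▸ hb'ι)
      · rw [← h3] at h2
        exact hj (h2 ▸ Finset.mem_insert_self _ _)
      · exact hbA h3
    -- the relation over the residue field
    have h1 : ∑ i, (v i : κ) * res (w b (f i) ⟨0, hr⟩) = 0 := by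
      have h0 : ∀ i, (v i : κ) * res (w b (f i) ⟨0, hr⟩) = ∑ j, (v i : κ) * ((l0 (f i) j : κ) * res (y b ⟨0, hr⟩ j)) := by
        intro i
        rw [hwres, Finset.mul_sum]
      rw [Finset.sum_congr rfl fun i _ => h0 i, Finset.sum_comm]
      refine Finset.sum_eq_zero fun j _ => ?_
      have h2 := congrFun hv j
      have h3 : ∑ i, v i * l0 (f i) j = 0 := h2
      have h4 : ∑ i, (v i : κ) * (l0 (f i) j : κ) = 0 := by
        have h5 : ((∑ i, v i * l0 (f i) j : ℤ) : κ) = ((0 : ℤ) : κ) := by rw [h3]
        rw [Int.cast_sum, Int.cast_zero] at h5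
        rw [← h5]
        exact Finset.sum_congr rfl fun i _ => (Int.cast_mul _ _).symm
      calc ∑ i, (v i : κ) * ((l0 (f i) j : κ) * res (y b ⟨0, hr⟩ j)) =
          (∑ i, (v i : κ) * (l0 (f i) j : κ)) * res (y b ⟨0, hr⟩ j) := by
            rw [Finset.sum_mul]
            exact Finset.sum_congr rfl fun i _ => by ring
        _ = 0 := by rw [h4, zero_mul]
    rw [Finset.sum_eq_single i₀] at h1
    · rw [hi₀] at h1
      exact (mul_eq_zero.1 h1).resolve_left (hint _ hvi)
    · intro i _ hne
      rw [hzero, mul_zero]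
      have h2 : f i ∈ insert (ι b) (insert b A) := by
        rw [← hf]
        exact Finset.mem_image_of_mem f (Finset.mem_univ _)
      rw [Finset.mem_insert] at h2
      rcases h2 with h2 | h2
      · exact absurd (hfi (h2.trans hi₀.symm)) hne
      · exact h2
    · intro h
      exact absurd (Finset.mem_univ _) h
  -- the valuations of the `c i`
  have hprodK : ∀ b ∈ V, ∀ i ∈ V.image ι, ((∏ s, w b i s : O) : K) = (∏ s, t b s) * c i := by
    intro b hb i hi
    push_cast
    rw [← hxc b hb i hi, ← Finset.prod_mul_distrib]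
    exact Finset.prod_congr rfl fun s _ => hwK b hb i s
  obtain ⟨i, hi, hmax⟩ := Finset.exists_max_image (V.image ι) (fun i => O.valuation (c i)) (hV.image ι)
  obtain ⟨b, hb, rfl⟩ := Finset.mem_image.1 hi
  obtain ⟨j, hj, hjs⟩ := hgood b hb
  have e1 : O.valuation ((∏ s, t b s) * c j) = 1 := by
    rw [← hprodK b hb j hj, ← O.valuation_eq_one_iff, ← IsLocalRing.residue_ne_zero_iff_isUnit]
    show res (∏ s, w b j s) ≠ 0
    rw [map_prod]
    exact Finset.prod_ne_zero_iff.2 fun s _ => hjs s
  have e2 : O.valuation ((∏ s, t b s) * c (ι b)) < 1 := by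
    rw [← hprodK b hb _ hi, ← O.valuation_lt_one_iff, ← IsLocalRing.residue_eq_zero_iff]
    show res (∏ s, w b (ι b) s) = 0
    rw [map_prod]
    exact Finset.prod_eq_zero (Finset.mem_univ (⟨0, hr⟩ : Fin r)) (hbad b hb)
  have e3 := hmax j hj
  rw [map_mul] at e1 e2
  have e4 : O.valuation (∏ s, t b s) * O.valuation (c j) ≤ O.valuation (∏ s, t b s) * O.valuation (c (ι b)) :=
    mul_le_mul' le_rfl e3
  rw [e1] at e4
  exact absurd e2 (not_lt.2 e4)

end Pool.Agent.GH

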