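import Pool.Agent.Helper61.GH.Arr
import Pool.Agent.Helper61.GH.Contra

/-!
# GH, block B4: general arrangements are not bad

`generic61`: if the coefficients of `l` are algebraically independent over `ℤ` there is a valuation ring of `K` which dominates the kernel of
`ℤ[l] → ℤ`, `l ↦ l0` (`exists_arr`), so `contra` applies. `phi_one61`: if every `Φ ≠ 0` had a bad `l` over a field `K Φ` with `Φ(l) ≠ 0` then the
quotient of the product of the fields `K Φ` by a maximal ideal, containing the functions which vanish at all multiples of some `Φ`, would be a field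
with a bad `l` whose coefficients are algebraically independent over `ℤ`.
-/

set_option autoImplicit false

namespace Pool.Agent.GH

open Finset MvPolynomial

universe u

/-- A valuation ring which dominates a local ring at a prime ideal. -/
theorem exists_val61 {R K : Type*} [CommRing R] [Field K] (i : R →+* K) (P : Ideal R) [P.IsPrime]
    (hi : ∀ a, i a = 0 → a ∈ P) : ∃ O : ValuationSubring K, ∀ a, O.valuation (i a) ≤ 1 ∧ (O.valuation (i a) < 1 ↔ a ∈ P) := by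
  have hunit : ∀ y : P.primeCompl, IsUnit (i y) := fun y => isUnit_iff_ne_zero.2 fun h => y.2 (hi _ h)
  obtain ⟨O, h, hloc⟩ := IsLocalRing.exists_factor_valuationRing (IsLocalization.lift (M := P.primeCompl)
    (S := Localization.AtPrime P) hunit)
  refine ⟨O, fun a => ?_⟩
  set f := IsLocalization.lift (M := P.primeCompl) (S := Localization.AtPrime P) hunit with hf
  have h1 : f (algebraMap R (Localization.AtPrime P) a) = i a := IsLocalization.lift_eq hunit a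
  have hmem : i a ∈ O := h1 ▸ h _
  refine ⟨(O.valuation_le_one_iff _).2 hmem, ?_⟩
  set g := f.codRestrict O.toSubring h with hg
  have h2 : ((g (algebraMap R (Localization.AtPrime P) a) : O.toSubring) : K) = i a := h1
  have h3 : IsUnit (g (algebraMap R (Localization.AtPrime P) a)) ↔ a ∉ P := by
    rw [isUnit_map_iff, IsLocalization.AtPrime.isUnit_to_map_iff (Localization.AtPrime P) P a]
    exact Iff.rfl
  have h4 : IsUnit (⟨i a, hmem⟩ : O) ↔ a ∉ P := by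
    rw [← h3]
    have h5 : (⟨i a, hmem⟩ : O) = g (algebraMap R (Localization.AtPrime P) a) := Subtype.ext h2.symm
    rw [h5]
  have h5 := O.valuation_lt_one_iff ⟨i a, hmem⟩
  rw [IsLocalRing.mem_maximalIdeal, mem_nonunits_iff, h4, not_not] at h5
  exact h5.symm

/-- The configurations which `l` must not have. -/
def Bad {n q r : ℕ} (hr : 0 < r) (A V : Finset (Fin q)) (ι : Fin q → Fin q) {K : Type*} [Field K]
    (l : Fin q → Fin (n + 1) → K) : Prop :=
  ∃ (c : Fin q → K) (x : Fin q → Fin r → Fin (n + 1) → K), (∀ i ∈ V.image ι, c i ≠ 0) ∧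
    (∀ b ∈ V, ∀ s, x b s ≠ 0) ∧ (∀ b ∈ V, ∀ i ∈ V.image ι, ∏ s, ∑ j, l i j * x b s j = c i) ∧
    (∀ b ∈ V, ∀ i, i ∉ V.image ι → ∃ s, ∑ j, l i j * x b s j = 0) ∧
    ∀ b ∈ V, ∀ i ∈ insert b A, ∑ j, l i j * x b ⟨0, hr⟩ j = 0

private theorem hom61 {σ S T : Type*} [CommRing S] [CommRing T] (g : S →+* T) (f : σ → S) (p : MvPolynomial σ ℤ) :
    g (aeval f p) = aeval (fun s => g (f s)) p :=
  comp_aeval_apply f g.toIntAlgHom p

/-- A generic arrangement is not bad. -/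
theorem generic61 {n q r : ℕ} (hn : 2 ≤ n) (hr : 0 < r) (hq : r * n + 2 ≤ q) (A V : Finset (Fin q)) (ι : Fin q → Fin q)
    (hA : A.card + 1 = n) (hV : V.Nonempty) (hι : Set.InjOn ι (V : Set (Fin q))) (hAV : Disjoint A V)
    (hAι : Disjoint A (V.image ι)) (hVι : Disjoint V (V.image ι)) {K : Type*} [Field K] (l : Fin q → Fin (n + 1) → K)
    (hl : ∀ p : MvPolynomial (Fin q × Fin (n + 1)) ℤ, p ≠ 0 → aeval (fun t => l t.1 t.2) p ≠ 0) : ¬ Bad hr A V ι l := by
  obtain ⟨l0, hl0⟩ := exists_arr A V ι hA hι hAV hAι hVι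
  set θ : MvPolynomial (Fin q × Fin (n + 1)) ℤ →+* ℤ := (aeval (R := ℤ) fun t => l0 t.1 t.2).toRingHom with hθ
  set i : MvPolynomial (Fin q × Fin (n + 1)) ℤ →+* K := (aeval (R := ℤ) fun t => l t.1 t.2).toRingHom with hi
  have hP : (RingHom.ker θ).IsPrime := RingHom.ker_isPrime θ
  obtain ⟨O, hO⟩ := exists_val61 i (RingHom.ker θ) (fun a ha => by
    by_cases h0 : a = 0
    · rw [h0]
      exact Ideal.zero_mem _
    · exact absurd ha (hl a h0))
  rintro ⟨c, x, h1, h2, h3, h4, h5⟩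
  refine contra hn hr hq A V ι hA hV hAV hAι hVι l0 hl0 O ?_ l ?_ c h1 x h2 h3 h4 h5
  · intro m hm
    have e1 : i (m : MvPolynomial (Fin q × Fin (n + 1)) ℤ) = (m : K) := map_intCast i m
    have e2 := hO (m : MvPolynomial (Fin q × Fin (n + 1)) ℤ)
    rw [e1, RingHom.mem_ker, map_intCast θ, Int.cast_id] at e2
    refine le_antisymm e2.1 (not_lt.1 fun h => hm (e2.2.1 h))
  · intro a j
    have e1 : i (X (a, j) - (l0 a j : MvPolynomial (Fin q × Fin (n + 1)) ℤ)) = l a j - (l0 a j : K) := by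
      rw [map_sub, map_intCast]
      congr 1
      exact aeval_X _ _
    rw [← e1, (hO _).2, RingHom.mem_ker, map_sub, map_intCast, Int.cast_id, sub_eq_zero]
    exact aeval_X _ _

private theorem phi_one61 {n q r : ℕ} (hn : 2 ≤ n) (hr : 0 < r) (hq : r * n + 2 ≤ q) (A V : Finset (Fin q)) (ι : Fin q → Fin q)
    (hA : A.card + 1 = n) (hV : V.Nonempty) (hι : Set.InjOn ι (V : Set (Fin q))) (hAV : Disjoint A V)
    (hAι : Disjoint A (V.image ι)) (hVι : Disjoint V (V.image ι)) :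
    ∃ Φ : MvPolynomial (Fin q × Fin (n + 1)) ℤ, Φ ≠ 0 ∧ ∀ (K : Type u) [Field K] (l : Fin q → Fin (n + 1) → K),
      aeval (fun t => l t.1 t.2) Φ ≠ 0 → ¬ Bad hr A V ι l := by
  classical
  by_contra hcon
  push Not at hcon
  set I := {Φ : MvPolynomial (Fin q × Fin (n + 1)) ℤ // Φ ≠ 0} with hI
  have hex : ∀ Φ : I, ∃ (K : Type u) (_ : Field K) (l : Fin q → Fin (n + 1) → K),
      aeval (fun t => l t.1 t.2) Φ.1 ≠ 0 ∧ Bad hr A V ι l := fun Φ => hcon Φ.1 Φ.2
  choose K F l hl hbad using hex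
  choose c x h1 h2 h3 h4 h5 using hbad
  -- the ideal of the functions which vanish almost everywhere
  let J : Ideal (∀ Φ : I, K Φ) :=
    { carrier := {f | ∃ Φ : I, ∀ Ψ : I, Φ.1 ∣ Ψ.1 → f Ψ = 0}
      zero_mem' := ⟨⟨1, one_ne_zero⟩, fun _ _ => rfl⟩
      add_mem' := by
        rintro f g ⟨Φ, hΦ⟩ ⟨Φ', hΦ'⟩
        refine ⟨⟨Φ.1 * Φ'.1, mul_ne_zero Φ.2 Φ'.2⟩, fun Ψ h => ?_⟩
        rw [Pi.add_apply, hΦ Ψ (dvd_of_mul_right_dvd h), hΦ' Ψ (dvd_of_mul_left_dvd h), add_zero]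
      smul_mem' := by
        rintro g f ⟨Φ, hΦ⟩
        refine ⟨Φ, fun Ψ h => ?_⟩
        rw [smul_eq_mul, Pi.mul_apply, hΦ Ψ h, mul_zero] }
  have hJ : J ≠ ⊤ := by
    intro h
    have h6 : (1 : ∀ Φ : I, K Φ) ∈ J := by
      rw [h]
      exact Submodule.mem_top
    obtain ⟨Φ, hΦ⟩ := h6
    exact one_ne_zero (hΦ Φ dvd_rfl)
  obtain ⟨M, hM, hJM⟩ := Ideal.exists_le_maximal J hJ
  let _ : Field ((∀ Φ : I, K Φ) ⧸ M) := Ideal.Quotient.field M
  set π : (∀ Φ : I, K Φ) →+* ((∀ Φ : I, K Φ) ⧸ M) := Ideal.Quotient.mk M with hπ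
  have hne : ∀ (f : ∀ Φ : I, K Φ) (Φ : I), (∀ Ψ : I, Φ.1 ∣ Ψ.1 → f Ψ ≠ 0) → π f ≠ 0 := by
    intro f Φ hf h0
    have h6 : f * (fun Ψ => (f Ψ)⁻¹) - 1 ∈ M := hJM ⟨Φ, fun Ψ h => by
      rw [Pi.sub_apply, Pi.mul_apply, mul_inv_cancel₀ (hf Ψ h), Pi.one_apply, sub_self]⟩
    have h7 := Ideal.Quotient.eq_zero_iff_mem.2 h6
    have h8 : π (f * (fun Ψ => (f Ψ)⁻¹) - 1) = 0 := h7
    rw [map_sub, map_mul, h0, zero_mul, map_one, zero_sub, neg_eq_zero] at h8
    exact one_ne_zero h8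
  have hval : ∀ b s i, π (fun Ψ => ∑ j, l Ψ i j * x Ψ b s j) =
      ∑ j, π (fun Ψ => l Ψ i j) * π (fun Ψ => x Ψ b s j) := by
    intro b s i
    rw [← Finset.sum_congr rfl fun j _ => map_mul π (fun Ψ => l Ψ i j) (fun Ψ => x Ψ b s j), ← map_sum]
    congr 1
    funext Ψ
    rw [Finset.sum_apply]
    rfl
  have hprod : ∀ b i, π (fun Ψ => ∏ s, ∑ j, l Ψ i j * x Ψ b s j) =
      ∏ s, ∑ j, π (fun Ψ => l Ψ i j) * π (fun Ψ => x Ψ b s j) := by
    intro b i
    rw [← Finset.prod_congr rfl fun s _ => hval b s i, ← map_prod]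
    congr 1
    funext Ψ
    rw [Finset.prod_apply]
  refine generic61 hn hr hq A V ι hA hV hι hAV hAι hVι (fun i j => π fun Ψ => l Ψ i j) ?_
    ⟨fun i => π fun Ψ => c Ψ i, fun b s j => π fun Ψ => x Ψ b s j, ?_, ?_, ?_, ?_, ?_⟩
  · intro p hp
    rw [← hom61 π (fun t => fun Ψ => l Ψ t.1 t.2) p]
    refine hne _ ⟨p, hp⟩ fun Ψ hΨ h0 => hl Ψ ?_
    have h6 : aeval (fun t => l Ψ t.1 t.2) p = 0 := by
      rw [← h0]
      exact (hom61 (Pi.evalRingHom K Ψ) (fun t => fun Ψ => l Ψ t.1 t.2) p).symm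
    obtain ⟨p', hp'⟩ := hΨ
    rw [hp', map_mul, h6, zero_mul]
  · intro i hi
    exact hne _ ⟨1, one_ne_zero⟩ fun Ψ _ => h1 Ψ i hi
  · intro b hb s h0
    have h6 : ∀ Ψ, ∃ j, x Ψ b s j ≠ 0 := fun Ψ => by
      have := h2 Ψ b hb s
      exact Function.ne_iff.1 this
    choose j hj using h6
    have h7 : ∑ i, π (fun Ψ => if i = j Ψ then (x Ψ b s i)⁻¹ else 0) * π (fun Ψ => x Ψ b s i) = 1 := by
      rw [← Finset.sum_congr rfl fun i _ => map_mul π _ _, ← map_sum, ← map_one π]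
      congr 1
      funext Ψ
      rw [Finset.sum_apply, Finset.sum_eq_single (j Ψ)]
      · show (if j Ψ = j Ψ then (x Ψ b s (j Ψ))⁻¹ else 0) * x Ψ b s (j Ψ) = 1
        rw [if_pos rfl, inv_mul_cancel₀ (hj Ψ)]
      · intro i _ hne'
        show (if i = j Ψ then (x Ψ b s i)⁻¹ else 0) * x Ψ b s i = 0
        rw [if_neg hne', zero_mul]
      · intro h
        exact absurd (Finset.mem_univ _) h
    have h8 : ∀ i, π (fun Ψ => x Ψ b s i) = 0 := fun i => congrFun h0 i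
    rw [Finset.sum_eq_zero fun i _ => by rw [h8, mul_zero]] at h7
    exact zero_ne_one h7
  · intro b hb i hi
    rw [← hprod]
    congr 1
    funext Ψ
    exact h3 Ψ b hb i hi
  · intro b hb i hi
    have h6 := hprod b i
    have h7 : (fun Ψ => ∏ s, ∑ j, l Ψ i j * x Ψ b s j) = (0 : ∀ Φ : I, K Φ) := by
      funext Ψ
      obtain ⟨s, hs⟩ := h4 Ψ b hb i hi
      exact Finset.prod_eq_zero (Finset.mem_univ s) hs
    rw [h7, map_zero] at h6
    obtain ⟨s, -, hs⟩ := Finset.prod_eq_zero_iff.1 h6.symm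
    exact ⟨s, hs⟩
  · intro b hb i hi
    rw [← hval]
    have h7 : (fun Ψ => ∑ j, l Ψ i j * x Ψ b ⟨0, hr⟩ j) = (0 : ∀ Φ : I, K Φ) := by
      funext Ψ
      exact h5 Ψ b hb i hi
    rw [h7, map_zero]

/-- (4): a general arrangement is in general position and not bad. -/
theorem exists_phi {n q r : ℕ} (hn : 2 ≤ n) (hr : 0 < r) (hq : r * n + 2 ≤ q) :
    ∃ Φ : MvPolynomial (Fin q × Fin (n + 1)) ℤ, Φ ≠ 0 ∧ ∀ (K : Type u) [Field K] (l : Fin q → Fin (n + 1) → K),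
      aeval (fun t => l t.1 t.2) Φ ≠ 0 →
        (∀ f : Fin (n + 1) → Fin q, Function.Injective f → (Matrix.of fun i j => l (f i) j).det ≠ 0) ∧
        ∀ (A V : Finset (Fin q)) (ι : Fin q → Fin q), A.card + 1 = n → V.Nonempty → Set.InjOn ι (V : Set (Fin q)) →
          Disjoint A V → Disjoint A (V.image ι) → Disjoint V (V.image ι) → ¬ Bad hr A V ι l := by
  classical
  have h1 : ∀ t : Finset (Fin q) × Finset (Fin q) × (Fin q → Fin q),
      ∃ Φ : MvPolynomial (Fin q × Fin (n + 1)) ℤ, Φ ≠ 0 ∧ ∀ (K : Type u) [Field K] (l : Fin q → Fin (n + 1) → K),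
        aeval (fun t => l t.1 t.2) Φ ≠ 0 → t.1.card + 1 = n → t.2.1.Nonempty → Set.InjOn t.2.2 (t.2.1 : Set (Fin q)) →
          Disjoint t.1 t.2.1 → Disjoint t.1 (t.2.1.image t.2.2) → Disjoint t.2.1 (t.2.1.image t.2.2) → ¬ Bad hr t.1 t.2.1 t.2.2 l := by
    rintro ⟨A, V, ι⟩
    by_cases h : A.card + 1 = n ∧ V.Nonempty ∧ Set.InjOn ι (V : Set (Fin q)) ∧ Disjoint A V ∧
      Disjoint A (V.image ι) ∧ Disjoint V (V.image ι)
    · obtain ⟨a1, a2, a3, a4, a5, a6⟩ := h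
      obtain ⟨Φ, hΦ, h⟩ := phi_one61 hn hr hq A V ι a1 a2 a3 a4 a5 a6
      exact ⟨Φ, hΦ, fun K _ l hl _ _ _ _ _ _ => h K l hl⟩
    · exact ⟨1, one_ne_zero, fun K _ l _ a1 a2 a3 a4 a5 a6 => absurd ⟨a1, a2, a3, a4, a5, a6⟩ h⟩
  choose Φ hΦ hΦ' using h1
  set D : (Fin (n + 1) → Fin q) → MvPolynomial (Fin q × Fin (n + 1)) ℤ := fun f =>
    (Matrix.of fun i j => (X (f i, j) : MvPolynomial (Fin q × Fin (n + 1)) ℤ)).det with hD
  have hDa : ∀ {S : Type u} [CommRing S] (l : Fin q → Fin (n + 1) → S) (f : Fin (n + 1) → Fin q),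
      aeval (fun t => l t.1 t.2) (D f) = (Matrix.of fun i j => l (f i) j).det := by
    intro S _ l f
    rw [hD]
    simp only
    have h2 := AlgHom.map_det (aeval (R := ℤ) fun t : Fin q × Fin (n + 1) => l t.1 t.2)
      (Matrix.of fun i j => (X (f i, j) : MvPolynomial (Fin q × Fin (n + 1)) ℤ))
    rw [h2]
    congr 1
    ext i j
    exact aeval_X _ _
  have hD0 : ∀ f, Function.Injective f → D f ≠ 0 := by
    intro f hf h0
    have h2 : (eval fun t : Fin q × Fin (n + 1) => if t.1 = f t.2 then (1 : ℤ) else 0) (D f) = 1 := by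
      rw [hD]
      simp only
      rw [RingHom.map_det]
      have h3 : ((eval fun t : Fin q × Fin (n + 1) => if t.1 = f t.2 then (1 : ℤ) else 0).mapMatrix
          (Matrix.of fun i j => (X (f i, j) : MvPolynomial (Fin q × Fin (n + 1)) ℤ))) = 1 := by
        ext i j
        rw [RingHom.mapMatrix_apply, Matrix.map_apply, Matrix.of_apply, eval_X, Matrix.one_apply]
        simp only [hf.eq_iff]
      rw [h3, Matrix.det_one]
    rw [h0, map_zero] at h2
    exact zero_ne_one h2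
  refine ⟨(∏ t, Φ t) * ∏ f ∈ Finset.univ.filter fun f : Fin (n + 1) → Fin q => Function.Injective f, D f,
    mul_ne_zero (Finset.prod_ne_zero_iff.2 fun t _ => hΦ t)
      (Finset.prod_ne_zero_iff.2 fun f hf => hD0 f (Finset.mem_filter.1 hf).2), fun K _ l hl => ?_⟩
  rw [map_mul, map_prod, map_prod] at hl
  have hl1 := Finset.prod_ne_zero_iff.1 (left_ne_zero_of_mul hl)
  have hl2 := Finset.prod_ne_zero_iff.1 (right_ne_zero_of_mul hl)
  refine ⟨fun f hf => ?_, fun A V ι a1 a2 a3 a4 a5 a6 => hΦ' (A, V, ι) K l (hl1 _ (Finset.mem_univ _)) a1 a2 a3 a4 a5 a6⟩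
  rw [← hDa l f]
  exact hl2 f (Finset.mem_filter.2 ⟨Finset.mem_univ _, hf⟩)

end Pool.Agent.GH

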